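import Pool.Agent.Lib.MP_0e7911_co_full.Wire

/-!
# Assembly of the full theorem
-/

set_option autoImplicit false

namespace Pool.Agent.Lib.MP_0e7911_co_full

open Finset Pool.Agent.Lib.MP_0e7911_co_h56 Pool.Agent.Lib.MP_0e7911_co_h50
open Pool.Agent.Lib.MP_0e7911_co_rect hiding qint

variable {K : Type*} [Field K]

/-! ### consequences of the algebraic independence -/

section generic

variable [CharZero K] {q t : K}

theorem ai_pow (hqt : AlgebraicIndependent ℚ ![q, t]) (i j : ℕ) (h : q ^ i * t ^ j = 1) :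
    i = 0 ∧ j = 0 := by
  have h1 : MvPolynomial.aeval (R := ℚ) ![q, t]
      (MvPolynomial.X 0 ^ i * MvPolynomial.X 1 ^ j - 1 : MvPolynomial (Fin 2) ℚ) = 0 := by
    simp [h]
  have h2 := (algebraicIndependent_iff.1 hqt) _ h1
  have h3 := sub_eq_zero.1 h2
  have h4 : (MvPolynomial.X 0 ^ i * MvPolynomial.X 1 ^ j : MvPolynomial (Fin 2) ℚ) =
      MvPolynomial.monomial (Finsupp.single 0 i + Finsupp.single 1 j) 1 := by
    rw [MvPolynomial.X_pow_eq_monomial, MvPolynomial.X_pow_eq_monomial, MvPolynomial.monomial_mul,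
      one_mul]
  rw [h4] at h3
  have h5 := congrArg (MvPolynomial.coeff 0) h3
  rw [MvPolynomial.coeff_monomial, MvPolynomial.coeff_one, if_pos rfl] at h5
  have h6 : (Finsupp.single 0 i + Finsupp.single 1 j : Fin 2 →₀ ℕ) = 0 := by
    by_contra hne
    rw [if_neg hne] at h5
    exact zero_ne_one h5
  constructor
  · have := DFunLike.congr_fun h6 0
    simpa using this
  · have := DFunLike.congr_fun h6 1
    simpa using this

theorem ai_q0 (hqt : AlgebraicIndependent ℚ ![q, t]) : q ≠ 0 := by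
  have := hqt.ne_zero 0
  simpa using this

theorem ai_t0 (hqt : AlgebraicIndependent ℚ ![q, t]) : t ≠ 0 := by
  have := hqt.ne_zero 1
  simpa using this

theorem ai_MM (hqt : AlgebraicIndependent ℚ ![q, t]) : MM q t ≠ 0 := by
  unfold MM
  refine mul_ne_zero (sub_ne_zero.2 fun h => ?_) (sub_ne_zero.2 fun h => ?_)
  · have := ai_pow hqt 1 0 (by rw [← h]; simp)
    omega
  · have := ai_pow hqt 0 1 (by rw [← h]; simp)
    omega

theorem ai_p (hqt : AlgebraicIndependent ℚ ![q, t]) (k : ℕ) (hk : 0 < k) : (q * t) ^ k ≠ 1 := by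
  intro h
  have := ai_pow hqt k k (by rw [← mul_pow]; exact h)
  omega

theorem ai_qint (hqt : AlgebraicIndependent ℚ ![q, t]) (k : ℕ) (hk : 1 ≤ k) : qint q k ≠ 0 := by
  intro h
  have h1 := one_sub_pow_eq q k
  rw [h, mul_zero, sub_eq_zero] at h1
  have := ai_pow hqt k 0 (by rw [← h1]; simp)
  omega

end generic

theorem isQS_of_isQ [CharZero K] {q t : K} (hqt : AlgebraicIndependent ℚ ![q, t])
    (H : YoungDiagram → SymF K) (hH : IsModMac q t H) (Δ : Module.End K (SymF K))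
    (hΔ : IsDelta q t H Δ) (Q : ℕ → ℕ → Module.End K (SymF K)) (hQ : IsQ q t Δ Q) :
    (baseSys q t).IsQS Q where
  q10 := by
    refine LinearMap.ext fun f => ?_
    rw [hQ.q10, D0_eq q t hqt H hH Δ hΔ]
    rfl
  q01 := by
    refine LinearMap.ext fun f => ?_
    rw [hQ.q01]
    show _ = EB K f
    unfold EB
    rw [LinearMap.mulLeft_apply, neg_mul]
  qmn := hQ.qmn

theorem full (q t : K) [CharZero K] (hqt : AlgebraicIndependent ℚ ![q, t])
    (H : YoungDiagram → SymF K) (hH : IsModMac q t H) (Δ : Module.End K (SymF K))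
    (hΔ : IsDelta q t H Δ) (Q : ℕ → ℕ → Module.End K (SymF K)) (hQ : IsQ q t Δ Q)
    (a b d N : ℕ) (ha : 0 < a) (hb : 0 < b) (hd : 0 < d) (hab : Nat.Coprime a b)
    [NeZero (a * d)] [NeZero (b * d)]
    (F : Module.End K (SymF K)) (hF : IsF q t Q a b F) :
    MvPolynomial.C (qint q (a * d) / qint q d) *
      evN K N ((-1) ^ (d * (b + 1)) * F ((-1) ^ (d - 1) * psum K d)) =
      ∑ p ∈ LRP (a * d) (b * d) N, wt q t p := by
  have hq0 := ai_q0 hqt
  have ht0 := ai_t0 hqt
  have hgcd : Nat.gcd (a * d) (b * d) = d := by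
    rw [Nat.gcd_mul_right, hab.gcd_eq_one, one_mul]
  have h1 := Sys.F_psum_eq (baseSys q t) (ai_MM hqt) (ai_p hqt) (mul_ne_zero hq0 ht0) Q
    (isQS_of_isQ hqt H hH Δ hΔ Q hQ) a b ha hb hab 1 F hF d hd
  have h2 : evN K N (F (psum K d)) = -((-1) ^ (b * d) * ∑ i ∈ range d, MvPolynomial.C (q ^ i) *
      ∑ p ∈ (LRD (a * d) (b * d) N).filter (fun p => Avoid i p.1), wt q t p) := by
    rw [h1, map_neg, map_sum, mul_sum]
    congr 1
    refine sum_congr rfl fun i hi => ?_
    rw [map_smul, line_formula q t a b d i N ha hb (mem_range.1 hi),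
      ← lineSum_eq q t hq0 ht0 a b d i N ha hb hab (mem_range.1 hi), mul_pow,
      MvPolynomial.smul_eq_C_mul, map_mul]
    ring
  have h3 : F ((-1) ^ (d - 1) * psum K d) = (-1) ^ (d - 1) * F (psum K d) := by
    rcases neg_one_pow_eq_or (SymF K) (d - 1) with h | h <;> rw [h] <;> simp
  have h4 := all_paths_of gap q t hq0 (ai_qint hqt) (a * d) (b * d) N
  rw [hgcd] at h4
  rw [h4, h3, map_mul, map_mul, h2, map_pow, map_pow, map_neg, map_one]
  have hsgn : ((-1 : MvPolynomial (Fin N) K) ^ (d * (b + 1)) * ((-1) ^ (d - 1) *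
      -((-1) ^ (b * d)))) = 1 := by
    rw [neg_eq_neg_one_mul ((-1 : MvPolynomial (Fin N) K) ^ (b * d)), ← pow_succ', ← pow_add,
      ← pow_add]
    refine Even.neg_one_pow ?_
    obtain ⟨k, rfl⟩ : ∃ k, d = k + 1 := ⟨d - 1, by omega⟩
    refine ⟨(k + 1) * b + k + 1, ?_⟩
    rw [Nat.add_sub_cancel]
    ring
  have key : ∀ x s1 s2 s3 Y : MvPolynomial (Fin N) K, s1 * (s2 * -s3) = 1 →
      x * (s1 * (s2 * -(s3 * Y))) = x * Y := by
    intro x s1 s2 s3 Y h
    linear_combination (x * Y) * h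
  exact key _ _ _ _ _ hsgn

theorem full' (q t : K) [CharZero K] (hqt : AlgebraicIndependent ℚ ![q, t])
    (H : YoungDiagram → SymF K) (hH : IsModMac q t H) (Δ : Module.End K (SymF K))
    (hΔ : IsDelta q t H Δ) (Q : ℕ → ℕ → Module.End K (SymF K)) (hQ : IsQ q t Δ Q)
    (a b d N m n : ℕ) [NeZero m] [NeZero n] (ha : 0 < a) (hb : 0 < b) (hd : 0 < d)
    (hab : Nat.Coprime a b) (hm : m = a * d) (hn : n = b * d)
    (F : Module.End K (SymF K)) (hF : IsF q t Q a b F) :
    MvPolynomial.C (qint q m / qint q d) *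
      evN K N ((-1) ^ (d * (b + 1)) * F ((-1) ^ (d - 1) * psum K d)) =
      ∑ p ∈ LRP m n N, wt q t p := by
  subst hm hn
  exact full q t hqt H hH Δ hΔ Q hQ a b d N ha hb hd hab F hF

end Pool.Agent.Lib.MP_0e7911_co_full
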