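import Pool.Agent.Lib.MP_0e7911_co_full.PathDefs

/-!
# From chains to labelled paths: definitions
-/

set_option autoImplicit false

namespace Pool.Agent.Lib.MP_0e7911_co_full

open Finset

/-- the correction term: for each north step `u` and each column `c` to its left, with
`y0 = u + 1 - ⌈n (x u - c) / m⌉` (as an integer) and `H c` the height of the path at the
abscissa `c` -/
def cst (m : ℕ) {n : ℕ} (x : Fin n → ℕ) : ℤ :=
  ∑ u : Fin n, ∑ c ∈ range (x u),
    ((if ((univ.filter (fun i : Fin n => x i < c)).card : ℤ) =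
          (u : ℕ) + 1 + (-((n : ℤ) * ((x u : ℤ) - c))) / m ∧
        ((univ.filter (fun i : Fin n => x i < c + 1)).card : ℤ) =
          (u : ℕ) + 1 + (-((n : ℤ) * ((x u : ℤ) - c))) / m then 1 else 0) -
     (if ((univ.filter (fun i : Fin n => x i < c)).card : ℤ) <
          (u : ℕ) + 1 + (-((n : ℤ) * ((x u : ℤ) - c))) / m ∧
        (u : ℕ) + 1 + (-((n : ℤ) * ((x u : ℤ) - c))) / m <
        ((univ.filter (fun i : Fin n => x i < c + 1)).card : ℤ) then 1 else 0))

/-- the columns which contain the label `α` -/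
def colsOf {m n N : ℕ} (x : Fin n → Fin m) (w : Fin n → Fin N) (α : Fin N) : Finset (Fin m) :=
  univ.filter (fun c => ∃ i, x i = c ∧ w i = α)

/-- the height of the path at the abscissa `c` -/
def hgt {m n : ℕ} (x : Fin n → Fin m) (c : ℕ) : ℕ :=
  (univ.filter (fun i : Fin n => (x i : ℕ) < c)).card

end Pool.Agent.Lib.MP_0e7911_co_full
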