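import Pool.Agent.Lib.MP_0e7911_co_h88.B1
import Pool.Agent.Lib.MP_0e7911_co_h88.B2c
import Pool.Agent.Lib.MP_0e7911_co_h58.Newton
import Pool.Agent.Lib.MP_0e7911_co_h42.B4main
import Pool.Agent.Lib.MP_0e7911_co_h13.FPsum

/-!
# The formal part: `F(p_d)` is a sum of words of first joints
-/

set_option autoImplicit false

namespace Pool.Agent.Lib.MP_0e7911_co_full

open Finset Pool.Agent.Lib.MP_0e7911_co_h56

variable {K : Type*} [Field K] {q t : K} {V0 V1 : Type*} [AddCommGroup V0] [Module K V0]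
    [AddCommGroup V1] [Module K V1]

/-- the result of the formal part -/
theorem Sys.F_psum_eq [CharZero K] (S : Sys q t V0 V1) (hM : MM q t ≠ 0)
    (hp : ∀ k : ℕ, 0 < k → (q * t) ^ k ≠ 1) (hp0 : q * t ≠ 0) (Q : ℕ → ℕ → Module.End K V0)
    (hQ : S.IsQS Q) (a b : ℕ) (ha : 0 < a) (hb : 0 < b) (hab : Nat.Coprime a b) (e : V0)
    (F : SymF K →ₗ[K] V0)
    (hF : ∀ l : YoungDiagram, F (gfun q t l) = (l.rowLens.map (fun r => Q (r * a) (r * b))).prod e)
    (d : ℕ) (hd : 0 < d) :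
    F (psum K d) = - ∑ i ∈ range d, (q * t) ^ i • S.Dw (blist a b d i) e := by
  obtain ⟨S', h1, h2⟩ := S.main hM Q hQ a b ha hb hab
  have := F_psum (q := q) (t := t) hp hp0 S'.Ek S'.Qk S'.Nk rfl S'.newton S'.pnewton
    (S'.comm_QE hM) e F (fun l => by
      rw [hF l]
      congr 2
      refine List.map_congr_left fun r hr => ?_
      exact h1 r (YoungDiagram.pos_of_mem_rowLens l r hr)) d hd
  rw [this, h2 d hd, LinearMap.sum_apply]
  rfl

end Pool.Agent.Lib.MP_0e7911_co_full
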