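import Pool.Agent.Lib.MP_0e7911_co_full.Asm
import Pool.Agent.Lib.MP_0e7911_co_h13.Exist3
import Pool.Agent.Lib.MP_0e7911_co_h31.Exist4
import Pool.Agent.Lib.MP_0e7911_co_h56.NonVacF
import Pool.Agent.Lib.MP_0e7911_co_h56.NonVacQ

/-!
# The objects of the full theorem exist
-/

set_option autoImplicit false

namespace Pool.Agent.Lib.MP_0e7911_co_full

open Finset Pool.Agent.Lib.MP_0e7911_co_h56

variable {K : Type*} [Field K] [CharZero K]

/-- the modified Macdonald polynomials exist -/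
theorem exists_modMac (q t : K) (hqt : AlgebraicIndependent ℚ ![q, t]) :
    ∃ H : YoungDiagram → SymF K, IsModMac q t H :=
  exists_modMac_of q t hqt (Pool.Agent.Lib.MP_0e7911_co_h31.Ex.exists_eig_exact q t hqt)
    (Pool.Agent.Lib.MP_0e7911_co_h31.Ex.exists_eig_exact t q (algInd_swap hqt))

/-- `H`, `Δ`, `Q` and all the maps `F_{a,b}` exist -/
theorem exists_all (q t : K) (hqt : AlgebraicIndependent ℚ ![q, t]) :
    ∃ (H : YoungDiagram → SymF K) (Δ : Module.End K (SymF K))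
      (Q : ℕ → ℕ → Module.End K (SymF K)) (F : ℕ → ℕ → Module.End K (SymF K)),
      IsModMac q t H ∧ IsDelta q t H Δ ∧ IsQ q t Δ Q ∧ ∀ a b, IsF q t Q a b (F a b) := by
  obtain ⟨H, hH⟩ := exists_modMac q t hqt
  have hM : (1 - q) * (1 - t) ≠ 0 := ai_MM hqt
  have hq : ∀ k : ℕ, 0 < k → (1 : K) - q ^ k ≠ 0 := fun k hk h => by
    have := ai_pow hqt k 0 (by rw [pow_zero, mul_one]; exact (sub_eq_zero.1 h).symm)
    omega
  have ht : ∀ k : ℕ, 0 < k → (1 : K) - t ^ k ≠ 0 := fun k hk h => by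
    have := ai_pow hqt 0 k (by rw [pow_zero, one_mul]; exact (sub_eq_zero.1 h).symm)
    omega
  have hD := D0_H q t hqt hq ht (fun l => schur_mem l)
    (fun _ _ h => Pool.Agent.Lib.MP_0e7911_co_h31.dom_transpose h) H hH
  let Δ : Module.End K (SymF K) := ((1 - q) * (1 - t))⁻¹ • (1 - D0 q t)
  have hΔ : IsDelta q t H Δ := by
    intro μ
    show ((1 - q) * (1 - t))⁻¹ • (H μ - D0 q t (H μ)) = _
    rw [hD μ, sub_smul, one_smul, sub_sub_cancel, smul_smul, ← mul_assoc, inv_mul_cancel₀ hM,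
      one_mul]
  obtain ⟨Q, hQ⟩ := exists_Q q t Δ
  have hF := fun a b => exists_F q t (ai_p hqt) (mul_ne_zero (ai_q0 hqt) (ai_t0 hqt)) Q a b
  choose F hF using hF
  exact ⟨H, Δ, Q, F, hH, hΔ, hQ, hF⟩

end Pool.Agent.Lib.MP_0e7911_co_full
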