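import Pool.Agent.Lib.MP_0e7911_co_full.Sys
import Pool.Agent.Lib.MP_0e7911_co_rect.Defs
import Pool.Agent.Lib.MP_0e7911_co_h56.DinvDefs
import Pool.Agent.Lib.MP_0e7911_co_h56.SymF

/-!
# Chain sums, ranks, and the base system on symmetric functions: definitions
-/

set_option autoImplicit false

namespace Pool.Agent.Lib.MP_0e7911_co_full

open Finset Pool.Agent.Lib.MP_0e7911_co_h56 Pool.Agent.Lib.MP_0e7911_co_h50
open Pool.Agent.Lib.MP_0e7911_co_rect hiding qint

/-! ### chain sums -/

/-- the statistic of one step of a chain: `v` = ranks of the columns, `S` = the columns which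
are raised -/
def cstat (U : ℕ) {m : ℕ} (v : Fin m → ℕ) (S : Finset (Fin m)) : ℕ :=
  (univ.filter (fun p : Fin m × Fin m => p.1 < p.2 ∧ p.1 ∉ S ∧ p.2 ∈ S ∧
    v p.2 < v p.1 ∧ v p.1 < v p.2 + U)).card

/-- the ranks of the columns before the step of the label `α` -/
def cbef (U : ℕ) {m N : ℕ} (v : Fin m → ℕ) (S : Fin N → Finset (Fin m)) (α : Fin N) : Fin m → ℕ :=
  fun i => v i + U * (univ.filter (fun β : Fin N => β < α ∧ i ∈ S β)).card

/-- the sum over the chains from `v` to `v'` with labels `0, ..., N-1` -/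
noncomputable def chain {K : Type*} [Field K] (q : K) (U : ℕ) {m : ℕ} (N : ℕ)
    (v v' : Fin m → ℕ) : MvPolynomial (Fin N) K :=
  ∑ S : Fin N → Finset (Fin m),
    if ∀ i, v' i = v i + U * (univ.filter (fun β : Fin N => i ∈ S β)).card then
      ∏ α : Fin N, (MvPolynomial.C (q ^ cstat U (cbef U v S α) (S α)) *
        MvPolynomial.X α ^ (S α).card)
    else 0

/-- the rank of the lattice point `(x, h)` (weakly above the diagonal); the unit is
`U = (m + 1) * m` -/
def rk (m n x h : ℕ) : ℕ := (m + 1) * (m * h - n * x) + x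

/-- `∑_H t^{∑ (H x - B x)} chain`, the sum over the height functions `H ≥ B` -/
noncomputable def lineSum {K : Type*} [Field K] (q t : K) (m n N : ℕ) (B : ℕ → ℕ) :
    MvPolynomial (Fin N) K :=
  ∑ H ∈ Fintype.piFinset (fun _ : Fin (m + 1) => range (n + 1)),
    if H 0 = 0 ∧ H (Fin.last m) = n ∧ ∀ x : Fin (m + 1), B x ≤ H x then
      MvPolynomial.C (t ^ (∑ x : Fin (m + 1), (H x - B x))) *
        chain q ((m + 1) * m) N (fun x : Fin m => rk m n x (H x.castSucc))
          (fun x : Fin m => rk m n x (H x.succ))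
    else 0

/-- the path does not touch the diagonal at the joints `1, ..., j` -/
def Avoid {m n : ℕ} (j : ℕ) (x : Fin n → Fin m) : Prop :=
  ∀ i : Fin n, 0 < (i : ℕ) → (i : ℕ) ≤ j * (n / Nat.gcd m n) →
    lam m (fun i => (x i : ℕ)) i ≠ 0

instance {m n : ℕ} (j : ℕ) (x : Fin n → Fin m) : Decidable (Avoid j x) :=
  inferInstanceAs (Decidable (∀ _, _))

/-! ### the base system -/

section base

variable {K : Type*} [Field K]

/-- complete homogeneous symmetric polynomial `h_c(q, t)` -/
def hqt (q t : K) (c : ℕ) : K := ∑ i ∈ range (c + 1), q ^ i * t ^ (c - i)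

/-- coefficients of `Ω(u) = (1 - u) / ((1 - q u) (1 - t u))` -/
def Om (q t : K) : ℕ → K
  | 0 => 1
  | c + 1 => hqt q t (c + 1) - hqt q t c

/-- coefficients of `B(u) = - M u / ((1 - q u) (1 - t u))` -/
def Bc (q t : K) : ℕ → K
  | 0 => 0
  | c + 1 => - (MM q t * hqt q t c)

/-- `(-1)^i e_i` -/
noncomputable def et (K : Type*) [Field K] (i : ℕ) : SymF K := (-1) ^ i * elem K i

/-- `ι : G ↦ G[X + M y]`, as an algebra homomorphism -/
noncomputable def ioA (q t : K) : SymF K →ₐ[K] Polynomial (SymF K) :=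
  MvPolynomial.aeval (fun j => Polynomial.C (MvPolynomial.X j) +
    Polynomial.C (MvPolynomial.C ((1 - q ^ (j + 1)) * (1 - t ^ (j + 1)))) *
      Polynomial.X ^ (j + 1))

/-- the linear map `Λ[y] → W` with `y^h G ↦ f h G` -/
noncomputable def polyLin {W : Type*} [AddCommGroup W] [Module K W] (f : ℕ → SymF K →ₗ[K] W) :
    Polynomial (SymF K) →ₗ[K] W where
  toFun v := v.sum (fun h G => f h G)
  map_add' u v := Polynomial.sum_add_index u v _ (by simp) (by simp)
  map_smul' c v := by
    rw [Polynomial.sum_smul_index' _ _ _ (by simp)]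
    simp only [map_smul, RingHom.id_apply]
    rw [Polynomial.sum, Polynomial.sum, Finset.smul_sum]

/-- `d (y^h G) = (-1)^h e_h G` -/
noncomputable def dB (K : Type*) [Field K] : Polynomial (SymF K) →ₗ[K] SymF K :=
  polyLin (fun h => LinearMap.mulLeft K (et K h))

/-- multiplication by `y` -/
noncomputable def yB (K : Type*) [Field K] : Module.End K (Polynomial (SymF K)) :=
  LinearMap.mulLeft K Polynomial.X

/-- `Z (y^h F) = ∑_{i + c = h} (-1)^i e_i Ω_c y^c F[X + M y]` -/
noncomputable def ZB (q t : K) : Module.End K (Polynomial (SymF K)) :=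
  polyLin (fun h => (LinearMap.mulLeft K (∑ x ∈ antidiagonal h,
    Polynomial.C (et K x.1 * MvPolynomial.C (Om q t x.2)) * Polynomial.X ^ x.2)) ∘ₗ
      (ioA q t).toLinearMap)

/-- `D_0 = d ι` -/
noncomputable def D0 (q t : K) : Module.End K (SymF K) := dB K ∘ₗ (ioA q t).toLinearMap

/-- `𝒟 (y^h F) = y^h D_0 F + ∑_{i + c = h} (-1)^i e_i B_c y^c F[X + M y]` -/
noncomputable def DDB (q t : K) : Module.End K (Polynomial (SymF K)) :=
  polyLin (fun h =>
    (LinearMap.mulLeft K (Polynomial.X ^ h)) ∘ₗ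
      (Polynomial.CAlgHom (R := K) (A := SymF K)).toLinearMap ∘ₗ D0 q t +
    (LinearMap.mulLeft K (∑ x ∈ antidiagonal h,
      Polynomial.C (et K x.1 * MvPolynomial.C (Bc q t x.2)) * Polynomial.X ^ x.2)) ∘ₗ
      (ioA q t).toLinearMap)

/-- multiplication by `-e_1` -/
noncomputable def EB (K : Type*) [Field K] : Module.End K (SymF K) :=
  LinearMap.mulLeft K (- elem K 1)

noncomputable def EEB (K : Type*) [Field K] : Module.End K (Polynomial (SymF K)) :=
  LinearMap.mulLeft K (Polynomial.C (- elem K 1))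

/-- the specialisation to finitely many variables -/
noncomputable def evN (K : Type*) [Field K] (N : ℕ) : SymF K →ₐ[K] MvPolynomial (Fin N) K :=
  MvPolynomial.aeval (fun j => ∑ i : Fin N, MvPolynomial.X i ^ (j + 1))

end base

end Pool.Agent.Lib.MP_0e7911_co_full
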