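import Mathlib

/-!
# Two-level systems (full version of MP_0e7911_co): definitions

`V0 = Λ`, `V1 = Λ[y]` in the application.
-/

set_option autoImplicit false

namespace Pool.Agent.Lib.MP_0e7911_co_full

open Finset

/-- `M = (1-q)(1-t)`. -/
def MM {K : Type*} [Field K] (q t : K) : K := (1 - q) * (1 - t)

/-- A two-level system. -/
structure Sys {K : Type*} [Field K] (q t : K) (V0 V1 : Type*) [AddCommGroup V0] [Module K V0]
    [AddCommGroup V1] [Module K V1] where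
  /-- the lowering map -/
  d : V1 →ₗ[K] V0
  /-- the raising map -/
  io : V0 →ₗ[K] V1
  y : V1 →ₗ[K] V1
  Z : V1 →ₗ[K] V1
  DD : V1 →ₗ[K] V1
  E : V0 →ₗ[K] V0
  EE : V1 →ₗ[K] V1
  DD_io : ∀ v, DD (io v) = io (d (io v))
  D_d : ∀ v, d (io (d v)) = d (DD v)
  DD_Z : ∀ v, DD (Z v) = Z (DD v)
  DD_y : ∀ v, DD (y v) = y (DD v) - MM q t • y (Z v)
  io_d_y : ∀ v, io (d (y v)) = Z (y v) - (q * t) • y (Z v)
  E_d : ∀ v, E (d v) = d (EE v)
  io_E : ∀ v, io (E v) = EE (io v) - MM q t • y (io v)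
  Z_EE : ∀ v, Z (EE v) = EE (Z v) - MM q t • y (Z v)
  y_EE : ∀ v, y (EE v) = EE (y v)

namespace Sys

variable {K : Type*} [Field K] {q t : K} {V0 V1 : Type*} [AddCommGroup V0] [Module K V0]
    [AddCommGroup V1] [Module K V1] (S : Sys q t V0 V1)

/-- `P = y Z` -/
def P : Module.End K V1 := S.y ∘ₗ S.Z

/-- the operator of a word -/
def phi (u : Module.End K V1) : Module.End K V0 := S.d ∘ₗ u ∘ₗ S.io

/-- `D = d ι` -/
def D : Module.End K V0 := S.d ∘ₗ S.io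

/-- `D' = d y ι` (it is also `M⁻¹ [E, D]`) -/
def Dp : Module.End K V0 := S.d ∘ₗ S.y ∘ₗ S.io

/-- `𝒟' = M⁻¹ [Ê, 𝒟]` -/
def DDp : Module.End K V1 := (MM q t)⁻¹ • (S.EE ∘ₗ S.DD - S.DD ∘ₗ S.EE)

/-- `R_j = φ(P^j)` -/
def R (j : ℕ) : Module.End K V0 := S.phi (S.P ^ j)

/-- `L_0 = E`, `L_{l+1} = φ(y P^l y)` -/
def L : ℕ → Module.End K V0
  | 0 => S.E
  | l + 1 => S.phi ((S.y : Module.End K V1) * S.P ^ l * S.y)

/-- `E_0 = 1`, `E_{k+1} = φ(P^k y)` -/
def Ek : ℕ → Module.End K V0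
  | 0 => 1
  | k + 1 => S.phi (S.P ^ k * S.y)

/-- `Q_k = φ(∑_{i<k} P^i y P^{k-1-i})` -/
def Qk (k : ℕ) : Module.End K V0 :=
  S.phi (∑ i ∈ range k, S.P ^ i * S.y * S.P ^ (k - 1 - i))

/-- `N_k = ∑_{i<k-1} p^i φ(y P^i Z P^{k-2-i} y) + p^{k-1} φ(y P^{k-1})` -/
def Nk (k : ℕ) : Module.End K V0 :=
  (∑ i ∈ range (k - 1), (q * t) ^ i •
    S.phi ((S.y : Module.End K V1) * S.P ^ i * S.Z * S.P ^ (k - 2 - i) * S.y)) +
  (q * t) ^ (k - 1) • S.phi ((S.y : Module.End K V1) * S.P ^ (k - 1))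

/-- the word `y^{b_1} Z y^{b_2} Z ... Z y^{b_m}` -/
def word : List ℕ → Module.End K V1
  | [] => 1
  | [b] => S.y ^ b
  | b :: b' :: bs => (S.y : Module.End K V1) ^ b * S.Z * word (b' :: bs)

/-- the operator `D_b` -/
def Dw (b : List ℕ) : Module.End K V0 := S.phi (S.word b)

/-- `Q` is a family of operators as in the problem, for the system `S`. -/
structure IsQS (Q : ℕ → ℕ → Module.End K V0) : Prop where
  q10 : Q 1 0 = S.D
  q01 : Q 0 1 = S.E
  qmn : ∀ m n, 0 < m → 0 < n → ∃ r s u v, r + u = m ∧ s + v = n ∧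
    r * v = s * u + Nat.gcd m n ∧
    Q m n = (MM q t)⁻¹ • (Q u v * Q r s - Q r s * Q u v)

end Sys

/-- the height `B(l)` of the path `δ^{[i]}` at the abscissa `l`: the lowest path from `(0,0)` to
`(a d, b d)` weakly above the diagonal, and strictly above it at the joints `1, ..., i` -/
def Bht (a b i l : ℕ) : ℕ :=
  if l = 0 then 0 else if l ≤ i * a then b * l / a + 1 else (b * l + a - 1) / a

/-- the steps of the path `δ^{[i]}` -/
def blist (a b d i : ℕ) : List ℕ :=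
  (List.range (a * d)).map (fun l => Bht a b i (l + 1) - Bht a b i l)

end Pool.Agent.Lib.MP_0e7911_co_full
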