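import Pool.Agent.Lib.MP_0e7911_co_full.Formal
import Pool.Agent.Lib.MP_0e7911_co_h54.Base
import Pool.Agent.Lib.MP_0e7911_co_h13.MacFinal
import Pool.Agent.Lib.MP_0e7911_co_h93.LineSumEq
import Pool.Agent.Lib.MP_0e7911_co_h56.FRFull
import Pool.Agent.Lib.MP_0e7911_co_h61.Gap
import Pool.Agent.Lib.MP_0e7911_co_h94.LineW
import Pool.Agent.Lib.MP_0e7911_co_h70.LinkN

/-!
# The line formula and the gap identity in the form used by the final theorem
-/

set_option autoImplicit false

namespace Pool.Agent.Lib.MP_0e7911_co_full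

open Finset Pool.Agent.Lib.MP_0e7911_co_h56 Pool.Agent.Lib.MP_0e7911_co_h50
open Pool.Agent.Lib.MP_0e7911_co_rect hiding qint

variable {K : Type*} [Field K]

theorem line_formula [CharZero K] (q t : K) (a b d i N : ℕ) (ha : 0 < a) (hb : 0 < b)
    (hi : i < d) :
    evN K N ((baseSys q t).Dw (blist a b d i) 1) =
      (-1) ^ (b * d) * lineSum q t (a * d) (b * d) N (Bht a b i) := by
  rw [← Pool.Agent.Lib.MP_0e7911_co_h94.line_Phi q t a b d i N ha hb hi]
  obtain ⟨x, bs, hbs⟩ : ∃ x bs, blist a b d i = x :: bs := by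
    have : blist a b d i ≠ [] := blist_ne_nil ha (by omega)
    exact List.exists_cons_of_ne_nil this
  have hlen : bs.length + 1 = a * d := by
    have : (blist a b d i).length = a * d := by simp [blist]
    rw [hbs, List.length_cons] at this
    exact this
  rw [hbs, Pool.Agent.Lib.MP_0e7911_co_h70.link, hlen]

theorem gap : Gap := by
  intro L _ q hq hk e X hX k hk0 hke hrow
  have h := Pool.Agent.Lib.MP_0e7911_co_h50.gap q hq X hX k hke (hk k hk0) hrow
  exact h

end Pool.Agent.Lib.MP_0e7911_co_full
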